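import Pool.Agent.H75C.HY.NFA

/-!
Piece B2 of the project NF of helper75: finite tables of the coefficients of the affine functions.
-/

set_option autoImplicit false

namespace Pool.Agent.Helper80.NF

open Pool.Agent.NPC Pool.Agent.H75C.HY Pool.Agent.H75C.HY.NF

/-- the coefficients of a connective -/
def row (𝔅 : Base) (b : 𝔅.B) : List Bool :=
  List.ofFn fun i : Fin (𝔅.ar b) =>
    xor (𝔅.ev b (fun j => decide (j = i))) (𝔅.ev b (fun _ => false))

/-- search in a list of symbols -/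
def lookC (𝔅 : Base) : List 𝔅.B → ℕ → ℕ → Bool
  | [], _, _ => false
  | b :: t, n, i => if n = 𝔅.idx b then (row 𝔅 b).getD i false else lookC 𝔅 t n i

def look0 (𝔅 : Base) : List 𝔅.B → ℕ → Bool
  | [], _ => false
  | b :: t, n => if n = 𝔅.idx b then 𝔅.ev b (fun _ => false) else look0 𝔅 t n

theorem poly_lookC (𝔅 : Base) (l : List 𝔅.B) :
    NPC.Poly (fun p : ℕ × ℕ => lookC 𝔅 l p.1 p.2) := by
  induction l with
  | nil => exact NPC.Poly.const _
  | cons b t ih =>
    exact NPC.Poly.ite (NPC.Poly.decide_eq (NPC.Poly.fst NPC.Poly.id) (NPC.Poly.const _))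
      (NPC.Poly.getD (NPC.Poly.const _) (NPC.Poly.snd NPC.Poly.id) (NPC.Poly.const _)) ih

theorem poly_look0 (𝔅 : Base) (l : List 𝔅.B) : NPC.Poly (look0 𝔅 l) := by
  induction l with
  | nil => exact NPC.Poly.const _
  | cons b t ih =>
    exact NPC.Poly.ite (NPC.Poly.decide_eq NPC.Poly.id (NPC.Poly.const _))
      (NPC.Poly.const _) ih

theorem lookC_spec (𝔅 : Base) (i : ℕ) (b : 𝔅.B) : ∀ l : List 𝔅.B, b ∈ l →
    lookC 𝔅 l (𝔅.idx b) i = (row 𝔅 b).getD i false := by
  intro l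
  induction l with
  | nil => intro h; exact absurd h (by simp)
  | cons b' t ih =>
    intro h
    rw [lookC]
    by_cases hb : 𝔅.idx b = 𝔅.idx b'
    · have := 𝔅.inj hb
      subst this
      rw [if_pos rfl]
    · rw [if_neg hb]
      refine ih ?_
      rcases List.mem_cons.1 h with rfl | h'
      · exact absurd rfl hb
      · exact h'

theorem look0_spec (𝔅 : Base) (b : 𝔅.B) : ∀ l : List 𝔅.B, b ∈ l →
    look0 𝔅 l (𝔅.idx b) = 𝔅.ev b (fun _ => false) := by
  intro l
  induction l with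
  | nil => intro h; exact absurd h (by simp)
  | cons b' t ih =>
    intro h
    rw [look0]
    by_cases hb : 𝔅.idx b = 𝔅.idx b'
    · have := 𝔅.inj hb
      subst this
      rw [if_pos rfl]
    · rw [if_neg hb]
      refine ih ?_
      rcases List.mem_cons.1 h with rfl | h'
      · exact absurd rfl hb
      · exact h'

/-- PIECE B2. -/
theorem b2 : B2 := by
  intro 𝔅
  have := 𝔅.fin
  obtain ⟨s, hs⟩ : ∃ l : List 𝔅.B, ∀ b, b ∈ l :=
    ⟨(Set.toFinite (Set.univ : Set 𝔅.B)).toFinset.toList, fun b => by simp⟩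
  refine ⟨lookC 𝔅 s, look0 𝔅 s, poly_lookC 𝔅 s, poly_look0 𝔅 s, fun b =>
    ⟨look0_spec 𝔅 b s (hs b), fun i => ?_⟩⟩
  rw [lookC_spec 𝔅 i b s (hs b)]
  simp [row]

end Pool.Agent.Helper80.NF
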